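import Mathlib

set_option autoImplicit false

/-!
# Cycle odd-covers: definitions and statements of the steps
-/

namespace Pool.Agent.H41.CO

open Equiv

/-- at most one nontrivial cycle -/
def OneCyc {V : Type} (σ : Perm V) : Prop := ∀ x y, σ x ≠ x → σ y ≠ y → σ.SameCycle x y

/-- the pairs `{x, σ x}` counted modulo two -/
def vec {V : Type} [DecidableEq V] (σ : Perm V) (u v : V) : ZMod 2 :=
  (if σ u = v then 1 else 0) + (if σ v = u then 1 else 0)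

open Classical in
/-- the edges of `G` -/
noncomputable def adj {V : Type} (G : SimpleGraph V) (u v : V) : ZMod 2 :=
  if G.Adj u v then 1 else 0

/-- all degrees are even -/
def EvenG {V : Type} (G : SimpleGraph V) : Prop := ∀ v, Even {w | G.Adj v w}.ncard

/-- `G` is the sum of `k` permutations with at most one nontrivial cycle -/
def Cov {V : Type} [DecidableEq V] (k : ℕ) (G : SimpleGraph V) : Prop :=
  ∃ σ : Fin k → Perm V, (∀ i, OneCyc (σ i)) ∧ ∀ u v, u ≠ v → ∑ i, vec (σ i) u v = adj G u v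

/-- out-degree -/
def out {V : Type} [DecidableEq V] (A : Finset (V × V)) (v : V) : ℕ :=
  (A.filter fun a => a.1 = v).card

/-- in-degree -/
def inn {V : Type} [DecidableEq V] (A : Finset (V × V)) (v : V) : ℕ :=
  (A.filter fun a => a.2 = v).card

/-- `A` is an orientation of `G` -/
def Ori {V : Type} (G : SimpleGraph V) (A : Finset (V × V)) : Prop :=
  (∀ u v, G.Adj u v ↔ ((u, v) ∈ A ∨ (v, u) ∈ A)) ∧ ∀ u v, (u, v) ∈ A → (v, u) ∉ A

/-- E1: balanced orientations -/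
def S_EULER : Prop := ∀ (V : Type) [Fintype V] [DecidableEq V] (G : SimpleGraph V), EvenG G →
  ∃ A : Finset (V × V), Ori G A ∧ ∀ v, out A v = inn A v

/-- E2: digraphs are covered by permutations (König) -/
def S_PERMS : Prop := ∀ (V : Type) [Fintype V] [DecidableEq V] (D : ℕ) (A : Finset (V × V))
  (l : V → ℕ), 1 ≤ D → (∀ v, (v, v) ∉ A) → (∀ v, out A v + l v ≤ D) → (∀ v, inn A v + l v ≤ D) →
  ∃ (τ : Fin D → Perm V) (col : V × V → Fin D), (∀ a ∈ A, τ (col a) a.1 = a.2) ∧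
    (∀ v, {i | τ i v ≠ v ∧ ¬ ((v, τ i v) ∈ A ∧ col (v, τ i v) = i)}.ncard + (out A v + l v) ≤ D) ∧
    (∀ v, {i | (τ i).symm v ≠ v ∧ ¬ (((τ i).symm v, v) ∈ A ∧ col ((τ i).symm v, v) = i)}.ncard +
      (inn A v + l v) ≤ D)

/-- E3: merging the cycles -/
def S_MERGE : Prop := ∀ (V : Type) [Fintype V] [DecidableEq V] (τ : Perm V) (R : Finset V),
  (∀ x, τ x ≠ x → ∃ y ∈ R, τ.SameCycle x y) → ∃ σ : Perm V, OneCyc σ ∧ ∀ x, x ∉ R → σ x = τ x

/-- E4: every permutation is the sum of two with at most one nontrivial cycle -/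
def S_TWO : Prop := ∀ (V : Type) [Fintype V] [DecidableEq V] (τ : Perm V),
  ∃ σ π : Perm V, OneCyc σ ∧ OneCyc π ∧ ∀ u v, u ≠ v → vec τ u v = vec σ u v + vec π u v

/-- E5: the bound by the maximum degree -/
def S_HALF : Prop := ∀ (V : Type) [Fintype V] [DecidableEq V] (G : SimpleGraph V) (k : ℕ),
  EvenG G → (∀ v, {w | G.Adj v w}.ncard ≤ 2 * k) → Cov (2 * k) G

/-- E6: choosing an arc of each cycle -/
def S_SEL : Prop := ∀ (V I : Type) [Fintype V] [DecidableEq V] [Fintype I] (q n : ℕ)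
  (u w : I → Fin q → Fin q → V), 1 ≤ q →
  (∀ i, Function.Injective fun a : Fin q × Fin q => u i a.1 a.2) →
  (∀ i, Function.Injective fun a : Fin q × Fin q => w i a.1 a.2) →
  (∀ v, {a : I × Fin q × Fin q | u a.1 a.2.1 a.2.2 = v}.ncard ≤ n) →
  (∀ v, {a : I × Fin q × Fin q | w a.1 a.2.1 a.2.2 = v}.ncard ≤ n) →
  ∃ a b : I → Fin q, (∀ v, {i | u i (a i) (b i) = v}.ncard ≤ n / q + 1) ∧
    ∀ v, {i | w i (a i) (b i) = v}.ncard ≤ n / q + 1

/-- E7: representatives for the cycles of a family of permutations -/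
def S_REPS : Prop := ∀ (V I : Type) [Fintype V] [DecidableEq V] [Fintype I] (τ : I → Perm V)
  (P : I → V → Prop) (q : ℕ), 1 ≤ q →
  (∀ i x, τ i x ≠ x → (∀ y, (τ i).SameCycle x y → P i y) →
    ∀ m n, m < q ^ 2 → n < q ^ 2 → ((τ i) ^ m) x = ((τ i) ^ n) x → m = n) →
  ∃ R : I → Finset V, (∀ i x, τ i x ≠ x → ∃ y ∈ R i, (τ i).SameCycle x y) ∧
    (∀ i x, τ i x ≠ x → ¬ P i x → x ∈ R i) ∧
    (∀ v, {i | v ∈ R i}.ncard ≤
      {i | τ i v ≠ v ∧ ¬ P i v}.ncard + (Fintype.card I / q + 1)) ∧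
    (∀ v, {i | (τ i).symm v ∈ R i}.ncard ≤
      {i | (τ i).symm v ≠ v ∧ ¬ P i ((τ i).symm v)}.ncard + (Fintype.card I / q + 1))

/-- E8: a random splitting of the vertices (local lemma) -/
def S_SPLIT : Prop := ∀ (V J : Type) [Fintype V] [DecidableEq V] [Fintype J] (N : J → Finset V)
  (k p t : ℕ), 1 ≤ p → 1 ≤ k → (∀ j, (N j).card ≤ k) → (∀ v, {j | v ∈ N j}.ncard ≤ 2 * k) →
  20 * (p : ℝ) * (k : ℝ) ^ 2 * Real.exp (-(2 * (t : ℝ) ^ 2 / k)) ≤ 1 →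
  ∃ f : V → ZMod p, ∀ j c, |(((N j).filter fun w => f w = c).card : ℝ) - (N j).card / p| ≤ t

/-- E9: the remaining graph -/
def S_XDEG : Prop := ∀ (V I : Type) [Fintype V] [DecidableEq V] [Fintype I] (G : SimpleGraph V)
  (A A0 : Finset (V × V)) (σ τ : I → Perm V) (P : I → V → Prop) (R : I → Finset V),
  EvenG G → Ori G A → A0 ⊆ A →
  (∀ i x, P i x → (x, τ i x) ∈ A ∧ (x, τ i x) ∉ A0) →
  (∀ a ∈ A, a ∉ A0 → ∃! i, P i a.1 ∧ τ i a.1 = a.2) →
  (∀ i x, x ∉ R i → σ i x = τ i x) → (∀ i x, τ i x ≠ x → ¬ P i x → x ∈ R i) →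
  ∃ X : SimpleGraph V, EvenG X ∧
    (∀ u v, u ≠ v → adj G u v = ∑ i, vec (σ i) u v + adj X u v) ∧
    ∀ v, {w | X.Adj v w}.ncard ≤ out A0 v + inn A0 v + 2 * {i | v ∈ R i}.ncard +
      2 * {i | (τ i).symm v ∈ R i}.ncard

/-- E10: cycles of pure points are long -/
def S_PURE : Prop := ∀ (V : Type) [Fintype V] (p : ℕ) (f : V → ZMod p) (c : ZMod p) (τ : Perm V)
  (x : V), p.Prime → c ≠ 0 → (∀ y, τ.SameCycle x y → f (τ y) = f y + c) →
  ∀ m n, m < p → n < p → (τ ^ m) x = (τ ^ n) x → m = n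

/-- the number of cycles used -/
def total (k p q t : ℕ) : ℕ :=
  (p - 1) * (k / p + t + 1) + 2 * ((k / p + t + 1) +
    2 * ((p - 1) * (2 * t + 2) + ((p - 1) * (k / p + t + 1) / q + 1)))

/-- E11: the main bound -/
def S_BOUND : Prop := ∀ (V : Type) [Fintype V] [DecidableEq V] (G : SimpleGraph V) (k p q t : ℕ),
  EvenG G → (∀ v, {w | G.Adj v w}.ncard ≤ 2 * k) → 1 ≤ k → p.Prime → 1 ≤ q → q ^ 2 ≤ p →
  20 * (p : ℝ) * (k : ℝ) ^ 2 * Real.exp (-(2 * (t : ℝ) ^ 2 / k)) ≤ 1 → Cov (total k p q t) G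

/-- E12: parameters -/
def S_NUM : Prop := ∃ k₀ : ℕ, ∀ k : ℕ, k₀ ≤ k → ∃ p q t : ℕ, p.Prime ∧ 1 ≤ q ∧ q ^ 2 ≤ p ∧
  20 * (p : ℝ) * (k : ℝ) ^ 2 * Real.exp (-(2 * (t : ℝ) ^ 2 / k)) ≤ 1 ∧
  (total k p q t : ℝ) ≤ k + (k : ℝ) ^ (9 / 10 : ℝ)

/-- `C` is (the edge set of) a cycle: its edges are `w i w (i+1)` for distinct vertices `w i`,
`i` modulo `m`, where `m ≥ 3`. -/
def IsCyc {V : Type} (C : SimpleGraph V) : Prop :=
  ∃ m : ℕ, 3 ≤ m ∧ ∃ w : ZMod m → V, Function.Injective w ∧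
    ∀ u v, C.Adj u v ↔ ∃ i, (w i = u ∧ w (i + 1) = v) ∨ (w i = v ∧ w (i + 1) = u)

/-- `G` has a cycle odd-cover with `k` cycles of the complete graph on `V`. -/
def HasOddCover {V : Type} (G : SimpleGraph V) (k : ℕ) : Prop :=
  ∃ C : Fin k → SimpleGraph V, (∀ i, IsCyc (C i)) ∧
    ∀ u v, G.Adj u v ↔ Odd {i | (C i).Adj u v}.ncard

/-- The cycle odd-cover number `c₂(G)`. -/
noncomputable def c2 {V : Type} (G : SimpleGraph V) : ℕ := sInf {k | HasOddCover G k}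

/-- E13: from permutations to cycles -/
def S_CONV : Prop := ∀ (V : Type) [Fintype V] [DecidableEq V] (G : SimpleGraph V) (k : ℕ),
  Cov k G → ∃ k', k' ≤ k ∧ HasOddCover G k'

end Pool.Agent.H41.CO
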