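import Pool.Agent.H41.CO.Defs

set_option autoImplicit false

/-!
# Cycle odd-covers: final assembly
-/

namespace Pool.Agent.H41.CO

theorem total_mono_aux (hb : S_BOUND) (hh : S_HALF) (hn : S_NUM) (hc : S_CONV) :
    ∃ C : ℝ, 0 < C ∧ ∀ (V : Type) [Fintype V] (G : SimpleGraph V) (D : ℕ),
      (∀ v, Even {w | G.Adj v w}.ncard) → (∀ v, {w | G.Adj v w}.ncard ≤ D) →
      ∃ k : ℕ, HasOddCover G k ∧ (k : ℝ) ≤ D / 2 + C * (D : ℝ) ^ (9 / 10 : ℝ) := by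
  classical
  obtain ⟨k₀, hk₀⟩ := hn
  refine ⟨max 1 (4 * (k₀ : ℝ)), by positivity, fun V _ G D heven hdeg => ?_⟩
  -- `k = ⌊D/2⌋`
  set k : ℕ := D / 2 with hk
  have hdeg' : ∀ v, {w | G.Adj v w}.ncard ≤ 2 * k := by
    intro v
    obtain ⟨m, hm⟩ := heven v
    have := hdeg v
    omega
  have hkD : (k : ℝ) ≤ D / 2 := by
    rw [hk, le_div_iff₀ (by norm_num : (0 : ℝ) < 2)]
    exact_mod_cast Nat.div_mul_le_self D 2
  have hkD' : (k : ℝ) ≤ D := by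
    have : (0 : ℝ) ≤ D := Nat.cast_nonneg _
    linarith
  have hC1 : (1 : ℝ) ≤ max 1 (4 * (k₀ : ℝ)) := le_max_left _ _
  have hC2 : 4 * (k₀ : ℝ) ≤ max 1 (4 * (k₀ : ℝ)) := le_max_right _ _
  rcases Nat.eq_zero_or_pos k with h0 | hpos
  · -- no edges
    obtain ⟨k', hk', hcov⟩ := hc V G (2 * k) (hh V G k heven hdeg')
    refine ⟨k', hcov, ?_⟩
    have : k' = 0 := by omega
    subst this
    rw [Nat.cast_zero]
    positivity
  rcases Nat.lt_or_ge k k₀ with hlt | hge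
  · obtain ⟨k', hk', hcov⟩ := hc V G (2 * k) (hh V G k heven hdeg')
    refine ⟨k', hcov, ?_⟩
    have h1 : (k' : ℝ) ≤ 2 * k := by exact_mod_cast hk'
    have h2 : (k : ℝ) ≤ k₀ := by exact_mod_cast hlt.le
    have h3 : (1 : ℝ) ≤ (D : ℝ) ^ (9 / 10 : ℝ) := by
      apply Real.one_le_rpow _ (by norm_num)
      have : (1 : ℝ) ≤ k := by exact_mod_cast hpos
      linarith
    have h4 : max 1 (4 * (k₀ : ℝ)) * 1 ≤ max 1 (4 * (k₀ : ℝ)) * (D : ℝ) ^ (9 / 10 : ℝ) :=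
      mul_le_mul_of_nonneg_left h3 (by positivity)
    have h5 : (0 : ℝ) ≤ D := Nat.cast_nonneg _
    have h6 : (0 : ℝ) ≤ k₀ := Nat.cast_nonneg _
    linarith
  · obtain ⟨p, q, t, hp, hq, hqp, hexp, htot⟩ := hk₀ k hge
    obtain ⟨k', hk', hcov⟩ := hc V G _ (hb V G k p q t heven hdeg' hpos hp hq hqp hexp)
    refine ⟨k', hcov, ?_⟩
    have h1 : (k' : ℝ) ≤ total k p q t := by exact_mod_cast hk'
    have h2 : (k : ℝ) ^ (9 / 10 : ℝ) ≤ (D : ℝ) ^ (9 / 10 : ℝ) :=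
      Real.rpow_le_rpow (Nat.cast_nonneg _) hkD' (by norm_num)
    have h3 : (0 : ℝ) ≤ (D : ℝ) ^ (9 / 10 : ℝ) := Real.rpow_nonneg (Nat.cast_nonneg _) _
    have h4 : 1 * (D : ℝ) ^ (9 / 10 : ℝ) ≤ max 1 (4 * (k₀ : ℝ)) * (D : ℝ) ^ (9 / 10 : ℝ) :=
      mul_le_mul_of_nonneg_right hC1 h3
    linarith

end Pool.Agent.H41.CO
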