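import Mathlib
import Pool.Agent.H41.CO.Defs
import Pool.Agent.H41.CO.LLL

/-!
# A random splitting of the vertices (local lemma and Hoeffding's inequality)
-/

set_option autoImplicit false

open Finset

namespace Pool.Agent.H735.CO

/-- Hoeffding's lemma for a Bernoulli variable -/
theorem bern (y s : ℝ) (h0 : 0 ≤ y) (h1 : y ≤ 1) :
    y * Real.exp (s * (1 - y)) + (1 - y) * Real.exp (s * (0 - y)) ≤ Real.exp (s ^ 2 / 8) := by
  classical
  let μ : MeasureTheory.Measure ℝ := ENNReal.ofReal y • MeasureTheory.Measure.dirac 1 +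
    ENNReal.ofReal (1 - y) • MeasureTheory.Measure.dirac 0
  have hμ : MeasureTheory.IsProbabilityMeasure μ := ⟨by
    have : μ Set.univ = ENNReal.ofReal y + ENNReal.ofReal (1 - y) := by simp [μ]
    rw [this, ← ENNReal.ofReal_add h0 (by linarith)]; simp⟩
  have hint : ∀ f : ℝ → ℝ, ∫ x, f x ∂μ = y * f 1 + (1 - y) * f 0 := by
    intro f
    have hI : ∀ a : ℝ, MeasureTheory.Integrable f (MeasureTheory.Measure.dirac a) := fun a =>
      MeasureTheory.integrable_dirac (by simp)
    rw [MeasureTheory.integral_add_measure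
        ((hI 1).smul_measure ENNReal.ofReal_ne_top) ((hI 0).smul_measure ENNReal.ofReal_ne_top),
      MeasureTheory.integral_smul_measure, MeasureTheory.integral_smul_measure,
      MeasureTheory.integral_dirac, MeasureTheory.integral_dirac, ENNReal.toReal_ofReal h0,
      ENNReal.toReal_ofReal (by linarith)]
    simp
  have hae : ∀ᵐ ω ∂μ, id ω ∈ Set.Icc (0 : ℝ) 1 := by
    rw [MeasureTheory.ae_add_measure_iff]
    constructor
    · refine MeasureTheory.Measure.ae_smul_measure ?_ _
      rw [MeasureTheory.ae_dirac_eq]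
      exact ⟨zero_le_one, le_refl _⟩
    · refine MeasureTheory.Measure.ae_smul_measure ?_ _
      rw [MeasureTheory.ae_dirac_eq]
      exact ⟨le_refl _, zero_le_one⟩
  have h2 := (ProbabilityTheory.hasSubgaussianMGF_of_mem_Icc (μ := μ) (X := (id : ℝ → ℝ))
    (a := 0) (b := 1) measurable_id.aemeasurable hae).mgf_le s
  rw [ProbabilityTheory.mgf, hint, hint] at h2
  have h3 : (((‖(1 : ℝ) - 0‖₊ / 2) ^ 2 : NNReal) : ℝ) * s ^ 2 / 2 = s ^ 2 / 8 := by
    simp
    ring
  rw [h3] at h2
  simpa using h2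

theorem hoeff (p : ℕ) [NeZero p] (c : ZMod p) (s : ℝ) :
    ∑ a : ZMod p, Real.exp (s * ((if a = c then 1 else 0) - 1 / (p : ℝ))) ≤
      p * Real.exp (s ^ 2 / 8) := by
  classical
  have hp : (1 : ℝ) ≤ p := by exact_mod_cast NeZero.one_le
  have h1 := bern (1 / (p : ℝ)) s (by positivity) (by rw [div_le_one (by linarith)]; exact hp)
  have h2 : ∑ a : ZMod p, Real.exp (s * ((if a = c then 1 else 0) - 1 / (p : ℝ))) =
      Real.exp (s * (1 - 1 / (p : ℝ))) + (p - 1) * Real.exp (s * (0 - 1 / (p : ℝ))) := by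
    rw [← Finset.add_sum_erase _ _ (Finset.mem_univ c), if_pos rfl]
    congr 1
    rw [Finset.sum_congr rfl (g := fun _ => Real.exp (s * (0 - 1 / (p : ℝ))))
      (fun a ha => by rw [if_neg (Finset.ne_of_mem_erase ha)]), Finset.sum_const,
      Finset.card_erase_of_mem (Finset.mem_univ c), Finset.card_univ, ZMod.card, nsmul_eq_mul,
      Nat.cast_sub NeZero.one_le, Nat.cast_one]
  rw [h2]
  have h3 : Real.exp (s * (1 - 1 / (p : ℝ))) + (p - 1) * Real.exp (s * (0 - 1 / (p : ℝ))) =
      p * (1 / (p : ℝ) * Real.exp (s * (1 - 1 / (p : ℝ))) +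
        (1 - 1 / (p : ℝ)) * Real.exp (s * (0 - 1 / (p : ℝ)))) := by
    have hp0 : (p : ℝ) ≠ 0 := by linarith
    field_simp
  rw [h3]
  exact mul_le_mul_of_nonneg_left h1 (by linarith)

variable {V : Type} [Fintype V] [DecidableEq V]

theorem count (p : ℕ) [NeZero p] (N : Finset V) (c : ZMod p) (s : ℝ) :
    ∑ f : V → ZMod p, Real.exp (s * (((N.filter fun w => f w = c).card : ℝ) - N.card / p)) ≤
      Fintype.card (V → ZMod p) * Real.exp (N.card * s ^ 2 / 8) := by
  classical
  have h1 : ∀ f : V → ZMod p,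
      Real.exp (s * (((N.filter fun w => f w = c).card : ℝ) - N.card / p)) =
      ∏ v, (if v ∈ N then Real.exp (s * ((if f v = c then 1 else 0) - 1 / (p : ℝ))) else 1) := by
    intro f
    rw [Finset.prod_ite_mem, Finset.univ_inter, ← Real.exp_sum, ← Finset.mul_sum,
      Finset.sum_sub_distrib, Finset.sum_const, nsmul_eq_mul, Finset.card_filter]
    push_cast
    congr 3
    ring
  have h2 := Finset.prod_univ_sum (fun _ : V => (univ : Finset (ZMod p)))
    (fun v a => if v ∈ N then Real.exp (s * ((if a = c then 1 else 0) - 1 / (p : ℝ))) else 1)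
  rw [Fintype.piFinset_univ] at h2
  rw [Finset.sum_congr rfl fun f _ => h1 f, ← h2]
  have h3 : ∏ v : V, ∑ a : ZMod p,
      (if v ∈ N then Real.exp (s * ((if a = c then 1 else 0) - 1 / (p : ℝ))) else 1) ≤
      ∏ v : V, ((p : ℝ) * if v ∈ N then Real.exp (s ^ 2 / 8) else 1) := by
    refine Finset.prod_le_prod (fun v _ => Finset.sum_nonneg fun a _ => ?_) fun v _ => ?_
    · split_ifs
      · exact (Real.exp_pos _).le
      · exact (Real.exp_pos _).le
      · exact zero_le_one
    · by_cases hv : v ∈ N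
      · simp only [hv, if_true]
        exact hoeff p c s
      · simp [hv, ZMod.card]
  refine h3.trans (le_of_eq ?_)
  rw [Finset.prod_mul_distrib, Finset.prod_const, Finset.prod_ite_mem, Finset.univ_inter,
    Finset.prod_const, ← Real.exp_nat_mul, Finset.card_univ]
  congr 1
  · rw [Fintype.card_fun, ZMod.card]
    push_cast
    rfl
  · congr 1
    ring

theorem tail (p : ℕ) [NeZero p] (N : Finset V) (c : ZMod p) (k t : ℕ) (hk : 1 ≤ k)
    (hN : N.card ≤ k) (ε : ℝ) (hε : ε ^ 2 = 1) :
    ((univ.filter fun f : V → ZMod p =>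
      (t : ℝ) < ε * (((N.filter fun w => f w = c).card : ℝ) - N.card / p)).card : ℝ) ≤
      Fintype.card (V → ZMod p) * Real.exp (-(2 * (t : ℝ) ^ 2 / k)) := by
  classical
  have hk0 : (0 : ℝ) < k := by exact_mod_cast hk
  set S := univ.filter fun f : V → ZMod p =>
      (t : ℝ) < ε * (((N.filter fun w => f w = c).card : ℝ) - N.card / p) with hS
  have h1 : (S.card : ℝ) ≤ ∑ f ∈ S, Real.exp (-(4 * (t : ℝ) ^ 2 / k)) *
      Real.exp ((ε * (4 * t / k)) * (((N.filter fun w => f w = c).card : ℝ) - N.card / p)) := by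
    rw [Finset.card_eq_sum_ones]
    push_cast
    refine Finset.sum_le_sum fun f hf => ?_
    rw [hS, Finset.mem_filter] at hf
    rw [← Real.exp_add]
    apply Real.one_le_exp
    have h4 : (4 * (t : ℝ) / k) * t ≤ (4 * (t : ℝ) / k) *
        (ε * (((N.filter fun w => f w = c).card : ℝ) - N.card / p)) :=
      mul_le_mul_of_nonneg_left hf.2.le (by positivity)
    have h5 : 4 * (t : ℝ) ^ 2 / k = (4 * (t : ℝ) / k) * t := by ring
    rw [h5]
    linarith
  have h2 : ∑ f ∈ S, Real.exp (-(4 * (t : ℝ) ^ 2 / k)) *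
      Real.exp ((ε * (4 * t / k)) * (((N.filter fun w => f w = c).card : ℝ) - N.card / p)) ≤
      ∑ f : V → ZMod p, Real.exp (-(4 * (t : ℝ) ^ 2 / k)) *
      Real.exp ((ε * (4 * t / k)) * (((N.filter fun w => f w = c).card : ℝ) - N.card / p)) :=
    Finset.sum_le_sum_of_subset_of_nonneg (Finset.subset_univ _) fun f _ _ => by positivity
  refine (h1.trans h2).trans ?_
  rw [← Finset.mul_sum]
  have h6 := count p N c (ε * (4 * t / k))
  have h7 : Real.exp (N.card * (ε * (4 * (t : ℝ) / k)) ^ 2 / 8) ≤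
      Real.exp (2 * (t : ℝ) ^ 2 / k) := by
    apply Real.exp_le_exp.2
    have h8 : (N.card : ℝ) ≤ k := by exact_mod_cast hN
    have h9 : (ε * (4 * (t : ℝ) / k)) ^ 2 = 16 * (t : ℝ) ^ 2 / k ^ 2 := by
      rw [mul_pow, hε]; ring
    rw [h9]
    have h10 : (N.card : ℝ) * (16 * (t : ℝ) ^ 2 / k ^ 2) ≤ k * (16 * (t : ℝ) ^ 2 / k ^ 2) :=
      mul_le_mul_of_nonneg_right h8 (by positivity)
    have h11 : (k : ℝ) * (16 * (t : ℝ) ^ 2 / k ^ 2) / 8 = 2 * (t : ℝ) ^ 2 / k := by
      field_simp
      ring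
    linarith
  calc Real.exp (-(4 * (t : ℝ) ^ 2 / k)) * ∑ f : V → ZMod p,
        Real.exp ((ε * (4 * t / k)) * (((N.filter fun w => f w = c).card : ℝ) - N.card / p))
      ≤ Real.exp (-(4 * (t : ℝ) ^ 2 / k)) * (Fintype.card (V → ZMod p) *
        Real.exp (2 * (t : ℝ) ^ 2 / k)) :=
        mul_le_mul_of_nonneg_left (h6.trans (mul_le_mul_of_nonneg_left h7 (by positivity)))
          (Real.exp_pos _).le
    _ = Fintype.card (V → ZMod p) * Real.exp (-(2 * (t : ℝ) ^ 2 / k)) := by
        rw [mul_left_comm, ← Real.exp_add]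
        congr 2
        ring

open Pool.Agent.Helper208.Rainbow in
/-- E8: a random splitting of the vertices -/
theorem split : Pool.Agent.H41.CO.S_SPLIT := by
  classical
  intro V J _ _ _ N k p t hp hk hN hdeg hexp
  have : NeZero p := ⟨by omega⟩
  have hk0 : (0 : ℝ) < k := by exact_mod_cast hk
  have hk1 : (1 : ℝ) ≤ k := by exact_mod_cast hk
  set A : J → Finset (V → ZMod p) := fun j => univ.filter fun f =>
    ∃ c, (t : ℝ) < |(((N j).filter fun w => f w = c).card : ℝ) - (N j).card / p| with hA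
  have hdep : ∀ j, DepOn (A j) (N j) := by
    intro j ω ω' h
    have h1 : ∀ c, ((N j).filter fun w => ω w = c) = (N j).filter fun w => ω' w = c := fun c =>
      Finset.filter_congr fun w hw => by rw [h w hw]
    simp only [hA, Finset.mem_filter, Finset.mem_univ, true_and, h1]
  have hcard : ∀ j, ((A j).card : ℝ) ≤
      2 * p * Real.exp (-(2 * (t : ℝ) ^ 2 / k)) * Fintype.card (V → ZMod p) := by
    intro j
    have hsub : A j ⊆ univ.biUnion fun c : ZMod p =>
        (univ.filter fun f : V → ZMod p =>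
          (t : ℝ) < 1 * ((((N j).filter fun w => f w = c).card : ℝ) - (N j).card / p)) ∪
        (univ.filter fun f : V → ZMod p =>
          (t : ℝ) < (-1) * ((((N j).filter fun w => f w = c).card : ℝ) - (N j).card / p)) := by
      intro f hf
      simp only [hA, Finset.mem_filter, Finset.mem_univ, true_and] at hf
      obtain ⟨c, hc⟩ := hf
      simp only [Finset.mem_biUnion, Finset.mem_univ, true_and, Finset.mem_union,
        Finset.mem_filter]
      refine ⟨c, ?_⟩
      rcases lt_abs.1 hc with h | h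
      · left; linarith
      · right; linarith
    have h1 : ((A j).card : ℝ) ≤ ∑ c : ZMod p,
        (((univ.filter fun f : V → ZMod p =>
          (t : ℝ) < 1 * ((((N j).filter fun w => f w = c).card : ℝ) - (N j).card / p)).card : ℝ) +
        ((univ.filter fun f : V → ZMod p =>
          (t : ℝ) < (-1) * ((((N j).filter fun w => f w = c).card : ℝ) -
            (N j).card / p)).card : ℝ)) := by
      have h2 := (Finset.card_le_card hsub).trans
        (Finset.card_biUnion_le.trans (Finset.sum_le_sum fun c _ => Finset.card_union_le _ _))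
      exact_mod_cast h2
    refine h1.trans ?_
    have h3 : ∀ c : ZMod p, (((univ.filter fun f : V → ZMod p =>
          (t : ℝ) < 1 * ((((N j).filter fun w => f w = c).card : ℝ) - (N j).card / p)).card : ℝ) +
        ((univ.filter fun f : V → ZMod p =>
          (t : ℝ) < (-1) * ((((N j).filter fun w => f w = c).card : ℝ) -
            (N j).card / p)).card : ℝ)) ≤
        2 * (Fintype.card (V → ZMod p) * Real.exp (-(2 * (t : ℝ) ^ 2 / k))) := by
      intro c
      have h4 := tail p (N j) c k t hk (hN j) 1 (by norm_num)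
      have h5 := tail p (N j) c k t hk (hN j) (-1) (by norm_num)
      linarith
    refine (Finset.sum_le_sum fun c _ => h3 c).trans (le_of_eq ?_)
    rw [Finset.sum_const, Finset.card_univ, ZMod.card, nsmul_eq_mul]
    ring
  obtain ⟨f, hf⟩ := lll univ A N hdep (fun _ => 1 / (2 * (k : ℝ) ^ 2)) (fun _ => by positivity)
    (fun _ => by
      rw [div_lt_one (by positivity)]
      nlinarith) (by
    intro i _
    refine (hcard i).trans ?_
    refine mul_le_mul_of_nonneg_right ?_ (by positivity)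
    set D := univ.filter fun j => j ≠ i ∧ ¬ Disjoint (N i) (N j) with hD
    rw [Finset.prod_const]
    have hDc : D.card ≤ 2 * k ^ 2 := by
      have hsub : D ⊆ (N i).biUnion fun v => univ.filter fun j => v ∈ N j := by
        intro j hj
        rw [hD, Finset.mem_filter, Finset.not_disjoint_iff] at hj
        obtain ⟨-, -, v, hv1, hv2⟩ := hj
        rw [Finset.mem_biUnion]
        exact ⟨v, hv1, by simpa using hv2⟩
      calc D.card ≤ ∑ v ∈ N i, (univ.filter fun j => v ∈ N j).card :=
            (Finset.card_le_card hsub).trans Finset.card_biUnion_le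
        _ ≤ ∑ v ∈ N i, 2 * k := Finset.sum_le_sum fun v _ => by
            have := hdeg v
            rw [Set.ncard_eq_toFinset_card'] at this
            simpa using this
        _ ≤ 2 * k ^ 2 := by
            rw [Finset.sum_const, smul_eq_mul]
            have := hN i
            nlinarith
    have hx : (0 : ℝ) ≤ 1 - 1 / (2 * (k : ℝ) ^ 2) := by
      rw [sub_nonneg, div_le_one (by positivity)]
      nlinarith
    have h1 : (1 - 1 / (2 * (k : ℝ) ^ 2)) ^ (2 * k ^ 2) ≤ (1 - 1 / (2 * (k : ℝ) ^ 2)) ^ D.card :=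
      pow_le_pow_of_le_one hx (by
        have : (0 : ℝ) ≤ 1 / (2 * (k : ℝ) ^ 2) := by positivity
        linarith) hDc
    have h2 : (1 / 2 : ℝ) ≤ (1 - 1 / (2 * (k : ℝ) ^ 2)) ^ (k ^ 2) := by
      have h3 := one_add_mul_le_pow (a := -(1 / (2 * (k : ℝ) ^ 2))) (by linarith) (k ^ 2)
      have h4 : 1 + ((k ^ 2 : ℕ) : ℝ) * -(1 / (2 * (k : ℝ) ^ 2)) = 1 / 2 := by
        push_cast
        field_simp
        norm_num
      rw [h4] at h3
      rw [sub_eq_add_neg]
      exact h3
    have h5 : (1 / 4 : ℝ) ≤ (1 - 1 / (2 * (k : ℝ) ^ 2)) ^ (2 * k ^ 2) := by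
      rw [mul_comm 2 (k ^ 2), pow_mul]
      nlinarith
    have h6 : 1 / (2 * (k : ℝ) ^ 2) * (1 / 4) ≤
        1 / (2 * (k : ℝ) ^ 2) * (1 - 1 / (2 * (k : ℝ) ^ 2)) ^ D.card :=
      mul_le_mul_of_nonneg_left (h5.trans h1) (by positivity)
    refine le_trans ?_ h6
    have h7 : 1 / (2 * (k : ℝ) ^ 2) * (1 / 4) = 1 / (8 * (k : ℝ) ^ 2) := by
      field_simp
      norm_num
    rw [h7, le_div_iff₀ (by positivity)]
    have h8 : 0 ≤ (p : ℝ) * (k : ℝ) ^ 2 * Real.exp (-(2 * (t : ℝ) ^ 2 / k)) := by positivity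
    nlinarith)
  refine ⟨f, fun j c => ?_⟩
  have h1 := hf j (Finset.mem_univ j)
  simp only [hA, Finset.mem_filter, Finset.mem_univ, true_and, not_exists, not_lt] at h1
  exact h1 c

end Pool.Agent.H735.CO
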